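import Pool.Agent.Helper93.HZ.Spec1

/-!
# HZ, module TFE: finite subgroups are elliptic
-/

set_option autoImplicit false

open MulAction Pointwise

namespace Pool.Agent.Helper93.HZ

theorem tfe_notMem {U : Type} {T : SimpleGraph U} {u v o : U} (p : T.Walk o u)
    (hpl : p.length = T.dist o u) (ho : T.dist o u < T.dist o v) : v ∉ p.support := by
  classical
  intro hv
  have h1 := p.length_takeUntil_le_length hv
  have h2 := SimpleGraph.dist_le (p.takeUntil v hv)
  omega

/-- an edge `u v` with `o` on the side of `u` and `w` on the side of `v` -/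
theorem tfe_far {U : Type} {T : SimpleGraph U} (hT : T.IsTree) {u v o w : U} (h : T.Adj u v)
    (ho : T.dist o u < T.dist o v) (hw : T.dist w v < T.dist w u) (hvw : v ≠ w) :
    T.dist o v < T.dist o w := by
  classical
  have hconn := hT.connected
  have hb : T.IsBridge s(u, v) :=
    (SimpleGraph.isAcyclic_iff_forall_adj_isBridge.1 hT.isAcyclic) h
  have hb2 := (SimpleGraph.isBridge_iff_forall_walk_mem_edges.1 hb)
  -- geodesics
  obtain ⟨p, hpl⟩ := hconn.exists_walk_length_eq_dist o u
  obtain ⟨q, hql⟩ := hconn.exists_walk_length_eq_dist w v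
  obtain ⟨r, hrl⟩ := hconn.exists_walk_length_eq_dist o w
  have hvp := tfe_notMem p hpl ho
  have huq := tfe_notMem q hql hw
  have h1 := hb2 (p.reverse.append (r.append q))
  rw [SimpleGraph.Walk.edges_append, SimpleGraph.Walk.edges_append, List.mem_append,
    List.mem_append, SimpleGraph.Walk.edges_reverse, List.mem_reverse] at h1
  rcases h1 with h1 | h1 | h1
  · exact absurd (p.snd_mem_support_of_mem_edges h1) hvp
  · have hv := r.snd_mem_support_of_mem_edges h1
    have h2 := congrArg SimpleGraph.Walk.length (r.take_spec hv)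
    rw [SimpleGraph.Walk.length_append] at h2
    have h3 := SimpleGraph.dist_le (r.takeUntil v hv)
    have h4 := SimpleGraph.dist_le (r.dropUntil v hv)
    have h5 := hconn.pos_dist_of_ne hvw
    omega
  · exact absurd (q.fst_mem_support_of_mem_edges h1) huq

/-- a vertex strictly between `u` and `w` is closer to every vertex than one of them -/
theorem tfe_between {U : Type} {T : SimpleGraph U} (hT : T.IsTree) {u w : U}
    (h : 2 ≤ T.dist u w) : ∃ v, ∀ o, T.dist o v < T.dist o u ∨ T.dist o v < T.dist o w := by
  classical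
  have hconn := hT.connected
  obtain ⟨p, hpl⟩ := hconn.exists_walk_length_eq_dist u w
  cases p with
  | nil => rw [SimpleGraph.dist_self] at h; omega
  | cons hadj p =>
    rename_i v
    rw [SimpleGraph.Walk.length_cons] at hpl
    have h1 := SimpleGraph.dist_le p
    have h2 : T.dist w v < T.dist w u := by
      rw [T.dist_comm (u := w) (v := v), T.dist_comm (u := w) (v := u)]
      omega
    have hvw : v ≠ w := by
      rintro rfl
      have := T.dist_eq_one_iff_adj.2 hadj
      omega
    refine ⟨v, fun o => ?_⟩
    have h3 := hT.dist_ne_of_adj o hadj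
    rcases lt_or_gt_of_ne h3 with h4 | h4
    · right
      exact tfe_far hT hadj h4 h2 hvw
    · exact Or.inl h4

theorem tfe_dist {G : Type} [Group G] (D : Setup G) (g : G) (u w : D.U) :
    D.T.dist (g • u) (g • w) = D.T.dist u w := by
  have key : ∀ (k : G) (x y : D.U), D.T.dist (k • x) (k • y) ≤ D.T.dist x y := by
    intro k x y
    obtain ⟨p, hp⟩ := D.tree.connected.exists_walk_length_eq_dist x y
    let φ : D.T →g D.T := ⟨fun z => k • z, fun h => Tadj_smul k h⟩
    have := SimpleGraph.dist_le (p.map φ)
    rw [SimpleGraph.Walk.length_map] at this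
    exact this.trans hp.le
  refine le_antisymm (key g u w) ?_
  have := key g⁻¹ (g • u) (g • w)
  rwa [inv_smul_smul, inv_smul_smul] at this

theorem st_TFE : ST_TFE := by
  intro G _ D S hS
  classical
  have : Fintype S := Fintype.ofFinite S
  -- the radius function
  let r : D.U → ℕ := fun u => Finset.univ.sup fun g : S => D.T.dist ((g : G) • D.u0) u
  have hrle : ∀ (u : D.U) (g : S), D.T.dist ((g : G) • D.u0) u ≤ r u := fun u g =>
    Finset.le_sup (f := fun g : S => D.T.dist ((g : G) • D.u0) u) (Finset.mem_univ g)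
  have hrinv : ∀ (s : S) (u : D.U), r ((s : G) • u) ≤ r u := by
    intro s u
    refine Finset.sup_le fun g _ => ?_
    have h1 : (g : G) • D.u0 = (s : G) • (((s⁻¹ * g : S) : G) • D.u0) := by
      rw [smul_smul]
      congr 1
      push_cast
      group
    rw [h1, tfe_dist]
    exact hrle u (s⁻¹ * g)
  -- a minimizer
  obtain ⟨u, hu⟩ : ∃ u : D.U, ∀ w, r u ≤ r w := by
    have hne : (Set.range r).Nonempty := ⟨_, D.u0, rfl⟩
    obtain ⟨u, hu⟩ := Nat.sInf_mem hne
    exact ⟨u, fun w => hu ▸ Nat.sInf_le ⟨w, rfl⟩⟩
  -- minimizers are at distance at most one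
  have hclose : ∀ x y : D.U, r x ≤ r u → r y ≤ r u → D.T.dist x y ≤ 1 := by
    intro x y hx hy
    by_contra hcon
    push Not at hcon
    obtain ⟨v, hv⟩ := tfe_between D.tree hcon
    have h1 : r v < r u := by
      have hpos : 0 < r u := by
        by_contra h0
        have h00 : r u = 0 := by omega
        have h2 := hrle x 1
        have h3 := hrle y 1
        have h4 := D.tree.connected.dist_triangle (u := x) (v := ((1 : S) : G) • D.u0) (w := y)
        have h5 := D.T.dist_comm (u := x) (v := ((1 : S) : G) • D.u0)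
        omega
      rw [Finset.sup_lt_iff (by simpa using hpos)]
      intro g _
      rcases hv ((g : G) • D.u0) with h2 | h2
      · exact lt_of_lt_of_le h2 ((hrle x g).trans hx)
      · exact lt_of_lt_of_le h2 ((hrle y g).trans hy)
    have := hu v
    omega
  have hadj : ∀ x y : D.U, r x ≤ r u → r y ≤ r u → x = y ∨ D.T.Adj x y := by
    intro x y hx hy
    have h1 := hclose x y hx hy
    by_cases hxy : x = y
    · exact Or.inl hxy
    · right
      have h2 := D.tree.connected.pos_dist_of_ne hxy
      exact D.T.dist_eq_one_iff_adj.1 (by omega)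
  refine ⟨u, fun g hg => ?_⟩
  by_contra hne
  set s : S := ⟨g, hg⟩ with hs
  have h1 : r (g • u) ≤ r u := hrinv s u
  have h2 : r (g • g • u) ≤ r u := (hrinv s (g • u)).trans h1
  have a1 : D.T.Adj u (g • u) := (hadj u (g • u) le_rfl h1).resolve_left fun h => hne h.symm
  have a2 : D.T.Adj (g • u) (g • g • u) := Tadj_smul g a1
  rcases hadj u (g • g • u) le_rfl h2 with h3 | h3
  · -- an inversion
    rcases (D.adj_iff u (g • u)).1 a1 with h4 | h4
    · have h5 := D.arr_smul g _ _ h4
      rw [← h3] at h5
      exact D.arr_asymm _ _ h4 h5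
    · have h5 := D.arr_smul g _ _ h4
      rw [← h3] at h5
      exact D.arr_asymm _ _ h4 h5
  · -- a triangle
    have h4 := D.tree.dist_ne_of_adj (g • g • u) a1
    have h5 : D.T.dist (g • g • u) u = 1 := D.T.dist_eq_one_iff_adj.2 h3.symm
    have h6 : D.T.dist (g • g • u) (g • u) = 1 := D.T.dist_eq_one_iff_adj.2 a2.symm
    omega

end Pool.Agent.Helper93.HZ
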