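import Pool.Agent.Helper93.HZ.Spec1

/-!
# HZ, module TPOT: a forest has only trivial cocycles
-/

set_option autoImplicit false

open MulAction Pointwise

namespace Pool.Agent.Helper93.HZ

/-- product of a cocycle along a walk -/
def tpot_w {U H : Type} [Group H] {T : SimpleGraph U} (c : U → U → H) :
    {u w : U} → T.Walk u w → H
  | _, _, SimpleGraph.Walk.nil => 1
  | u, _, SimpleGraph.Walk.cons (v := v) _ p => c u v * tpot_w c p

theorem tpot_append {U H : Type} [Group H] {T : SimpleGraph U} (c : U → U → H) :
    ∀ {u v w : U} (p : T.Walk u v) (q : T.Walk v w),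
      tpot_w c (p.append q) = tpot_w c p * tpot_w c q
  | _, _, _, SimpleGraph.Walk.nil, q => by
    rw [SimpleGraph.Walk.nil_append]; simp [tpot_w]
  | _, _, _, SimpleGraph.Walk.cons h p, q => by
    rw [SimpleGraph.Walk.cons_append]
    simp only [tpot_w]
    rw [tpot_append c p q, mul_assoc]

theorem st_TPOT : ST_TPOT := by
  intro U T hT H _ c hc _
  classical
  -- roots and paths
  let r : U → U := fun x => (T.connectedComponentMk x).out
  have hr : ∀ x, T.Reachable (r x) x := fun x =>
    SimpleGraph.ConnectedComponent.exact (Quot.out_eq _)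
  have hrr : ∀ x y, T.Adj x y → r x = r y := fun x y h => by
    have : T.connectedComponentMk x = T.connectedComponentMk y :=
      SimpleGraph.ConnectedComponent.sound h.reachable
    simp only [r, this]
  have hp : ∀ x, ∃ p : T.Walk (r x) x, p.IsPath := fun x => by
    obtain ⟨p⟩ := hr x
    exact ⟨p.bypass, p.bypass_isPath⟩
  have huniq : ∀ (u x : U) (p q : T.Walk u x), p.IsPath → q.IsPath → tpot_w c p = tpot_w c q := by
    intro u x p q h1 h2
    have := (hT.subsingleton_path u x).elim ⟨p, h1⟩ ⟨q, h2⟩
    rw [Subtype.mk.injEq] at this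
    rw [this]
  let f : U → H := fun x => tpot_w c (hp x).choose
  have hf : ∀ (x : U) (p : T.Walk (r x) x), p.IsPath → f x = tpot_w c p := fun x p h =>
    huniq _ _ _ _ (hp x).choose_spec h
  -- one direction
  have key : ∀ x y, T.Adj x y → ∀ p : T.Walk (r x) x, p.IsPath → y ∉ p.support →
      f y = f x * c x y := by
    intro x y h p hp1 hy
    have hxy := hrr x y h
    have hq : (p.concat h).IsPath := hp1.concat hy h
    have h1 : f y = tpot_w c ((p.concat h).copy hxy rfl) := by
      refine hf y _ ?_
      rw [SimpleGraph.Walk.isPath_copy]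
      exact hq
    rw [h1, hf x p hp1]
    have h2 : ∀ (u : U) (hu : r x = u), tpot_w c ((p.concat h).copy hu rfl) =
        tpot_w c (p.concat h) := by
      intro u hu; subst hu; rfl
    rw [h2, SimpleGraph.Walk.concat_eq_append, tpot_append]
    simp [tpot_w]
  refine ⟨f, fun x y h => ?_⟩
  have hcc : c y x = (c x y)⁻¹ := eq_inv_of_mul_eq_one_right (hc x y h)
  by_cases hy : y ∈ (hp x).choose.support
  · -- `y` is before `x`
    have hxy := hrr x y h
    set p := (hp x).choose with hpdef
    have hp1 : p.IsPath := (hp x).choose_spec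
    have hq1 : (p.takeUntil y hy).IsPath := hp1.takeUntil hy
    have hx : x ∉ (p.takeUntil y hy).support :=
      SimpleGraph.Walk.endpoint_notMem_support_takeUntil hp1 hy h.ne
    have h3 := key y x h.symm ((p.takeUntil y hy).copy hxy rfl)
      (by rw [SimpleGraph.Walk.isPath_copy]; exact hq1)
      (by rw [SimpleGraph.Walk.support_copy]; exact hx)
    rw [h3, hcc]
    group
  · have h3 := key x y h _ (hp x).choose_spec hy
    rw [h3]
    group

end Pool.Agent.Helper93.HZ
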